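import Pool.Agent.helper84.NR.Spec

set_option autoImplicit false

namespace Pool.Agent.helper84.NR

open scoped Classical
open Finset

theorem GCN_one (hIDX : IDX_stmt) (hEDG : EDG_stmt) (hWW0 : WW0_stmt) {V F : Type} [Fintype V] [Fintype F]
    (M : PMap V F) (x y : V) (B : F) (hne : ∀ f, ¬ (OnV M.toCyc f x ∧ OnV M.toCyc f y))
    (hB : OnV M.toCyc B y) (hj : ∃ k, sh M x y B k) :
    (((range (M.len B)).filter (fun k => gp M x y B k)).card : ℤ) =
      ((shV M x B).card : ℤ) - (shE M x B).card - 1 := by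
  obtain ⟨i1, i2, i3, i4, i5⟩ := hIDX V F M.toCyc B (st M y B)
  obtain ⟨e1, e2⟩ := hEDG V F M
  obtain ⟨w0, w1⟩ := hWW0 V F M y B hB
  have hw0 : M.bd B (st M y B + 0) = y := w0
  have hw1 : M.bd B (st M y B + M.len B) = y := w1
  -- an index on a face with `x` is not `0`
  have hy : ∀ A, OnV M.toCyc A x → ¬ OnV M.toCyc A y := fun A h1 h2 => hne A ⟨h1, h2⟩
  set Sh : Finset ℕ := (range (M.len B)).filter (fun k => sh M x y B k) with hSh
  set Sh' : Finset ℕ := (range (M.len B)).filter
    (fun k => sh M x y B k ∧ ∃ b, k < b ∧ sh M x y B b) with hSh'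
  have hmemSh : ∀ k, k ∈ Sh ↔ sh M x y B k := by
    intro k
    rw [hSh, Finset.mem_filter, Finset.mem_range]
    exact ⟨fun h => h.2, fun h => ⟨h.2.1, h⟩⟩
  have hmemSh' : ∀ k, k ∈ Sh' ↔ (sh M x y B k ∧ ∃ b, k < b ∧ sh M x y B b) := by
    intro k
    rw [hSh', Finset.mem_filter, Finset.mem_range]
    exact ⟨fun h => h.2, fun h => ⟨h.1.2.1, h⟩⟩
  -- (1)
  have hc1 : Sh'.card + 1 = Sh.card := by
    obtain ⟨k0, hk0⟩ := hj
    have hnon : Sh.Nonempty := ⟨k0, (hmemSh k0).mpr hk0⟩
    have hE : Sh' = Sh.erase (Sh.max' hnon) := by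
      ext k
      rw [hmemSh', Finset.mem_erase, hmemSh]
      constructor
      · rintro ⟨h1, b, hb, h2⟩
        refine ⟨?_, h1⟩
        intro h3
        have h4 := Finset.le_max' Sh b ((hmemSh b).mpr h2)
        omega
      · rintro ⟨h1, h2⟩
        refine ⟨h2, Sh.max' hnon, ?_, (hmemSh _).mp (Finset.max'_mem Sh hnon)⟩
        have h4 := Finset.le_max' Sh k ((hmemSh k).mpr h2)
        omega
    rw [hE]
    exact Finset.card_erase_add_one (Finset.max'_mem Sh hnon)
  -- (2)
  have hc2 : (Sh'.filter (fun k => ∃ A, OnV M.toCyc A x ∧ OnE M.toCyc A s(ww M y B k, ww M y B (k + 1)))).card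
      + ((range (M.len B)).filter (fun k => gp M x y B k)).card = Sh'.card := by
    have h1 : (range (M.len B)).filter (fun k => gp M x y B k) =
        Sh'.filter (fun k => ¬ ∃ A, OnV M.toCyc A x ∧ OnE M.toCyc A s(ww M y B k, ww M y B (k + 1))) := by
      ext k
      rw [Finset.mem_filter, Finset.mem_filter, hmemSh', Finset.mem_range]
      constructor
      · rintro ⟨_, h2, h3, h4⟩
        exact ⟨⟨h2, h3⟩, h4⟩
      · rintro ⟨⟨h2, h3⟩, h4⟩
        exact ⟨h2.2.1, h2, h3, h4⟩
    rw [h1]
    exact Finset.card_filter_add_card_filter_not _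
  -- (3)
  have hc3 : (shV M x B).card = Sh.card := by
    have h1 : shV M x B = Sh.image (fun k => ww M y B k) := by
      ext v
      rw [shV, Finset.mem_filter, Finset.mem_image]
      constructor
      · rintro ⟨-, h2, A, hA, hAv⟩
        obtain ⟨a, ha, rfl⟩ := i2 v h2
        refine ⟨a, (hmemSh a).mpr ⟨?_, ha, A, hA, hAv⟩, rfl⟩
        rcases Nat.eq_zero_or_pos a with h0 | h0
        · exfalso
          subst h0
          rw [hw0] at hAv
          exact hy A hA hAv
        · exact h0
      · rintro ⟨k, hk, rfl⟩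
        have hk' := (hmemSh k).mp hk
        exact ⟨Finset.mem_univ _, ⟨st M y B + k, rfl⟩, hk'.2.2⟩
    rw [h1]
    refine Finset.card_image_of_injOn ?_
    intro a ha b hb hab
    exact i1 a b ((hmemSh a).mp ha).2.1 ((hmemSh b).mp hb).2.1 hab
  -- (4)
  have hc4 : (shE M x B).card = (Sh'.filter (fun k => ∃ A, OnV M.toCyc A x ∧
      OnE M.toCyc A s(ww M y B k, ww M y B (k + 1)))).card := by
    have h1 : shE M x B = (Sh'.filter (fun k => ∃ A, OnV M.toCyc A x ∧
        OnE M.toCyc A s(ww M y B k, ww M y B (k + 1)))).image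
          (fun k => s(ww M y B k, ww M y B (k + 1))) := by
      ext e
      rw [shE, Finset.mem_filter, Finset.mem_image]
      constructor
      · rintro ⟨-, h2, A, hA, hAe⟩
        obtain ⟨a, ha, rfl⟩ := i3 e h2
        obtain ⟨hu, hv, -⟩ := e1 A _ _ hAe
        have hpos : 1 ≤ a := by
          rcases Nat.eq_zero_or_pos a with h0 | h0
          · exfalso
            subst h0
            rw [hw0] at hu
            exact hy A hA hu
          · exact h0
        have hlt : a + 1 < M.len B := by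
          rcases Nat.lt_or_ge (a + 1) (M.len B) with h0 | h0
          · exact h0
          · exfalso
            have h3 : a + 1 = M.len B := by omega
            have h4 : st M y B + a + 1 = st M y B + M.len B := by omega
            rw [h4, hw1] at hv
            exact hy A hA hv
        refine ⟨a, Finset.mem_filter.mpr ⟨(hmemSh' a).mpr ⟨⟨hpos, ha, A, hA, hu⟩, a + 1, by omega,
          ⟨by omega, hlt, A, hA, hv⟩⟩, A, hA, hAe⟩, rfl⟩
      · rintro ⟨k, hk, rfl⟩
        rw [Finset.mem_filter] at hk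
        exact ⟨Finset.mem_univ _, ⟨st M y B + k, rfl⟩, hk.2⟩
    rw [h1]
    refine Finset.card_image_of_injOn ?_
    intro a ha b hb hab
    rw [Finset.mem_coe, Finset.mem_filter] at ha hb
    have ha' := (hmemSh' a).mp ha.1
    have hb' := (hmemSh' b).mp hb.1
    obtain ⟨c, hc, hc2⟩ := ha'.2
    obtain ⟨d, hd, hd2⟩ := hb'.2
    have hal : a + 1 < M.len B := by have := hc2.2.1; omega
    have hbl : b + 1 < M.len B := by have := hd2.2.1; omega
    have hab' : s(ww M y B a, ww M y B (a + 1)) = s(ww M y B b, ww M y B (b + 1)) := hab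
    rw [Sym2.eq_iff] at hab'
    rcases hab' with ⟨h3, -⟩ | ⟨h3, h4⟩
    · exact i1 a b (by omega) (by omega) h3
    · exfalso
      have h5 := i1 a (b + 1) (by omega) hbl h3
      have h6 := i1 (a + 1) b hal (by omega) h4
      omega
  omega

theorem GCN (hIDX : IDX_stmt) (hEDG : EDG_stmt) (hWW0 : WW0_stmt) : GCN_stmt := by
  intro V F _ _ M x y J hT
  rw [gaps, Finset.card_sigma, Nat.cast_sum]
  refine Finset.sum_congr rfl (fun B hB => ?_)
  exact GCN_one hIDX hEDG hWW0 M x y B hT.ne (hT.jy B hB) (hT.jn B hB)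

end Pool.Agent.helper84.NR

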