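import Pool.Agent.helper56.NR.Spec

set_option autoImplicit false

open Complex Metric Set Filter Topology MeasureTheory Pool.Agent.helper98.ILF

open EX (ff)

noncomputable section

namespace NR

theorem LFD (hLIF : EX.LIF_stmt) : LFD_stmt := by
  intro n c x t ρ hn hρ
  obtain ⟨y, hy⟩ : ∃ y, y = (ff n c)^[t] x := ⟨_, rfl⟩
  have hρ0 : (ρ : ℂ) ≠ 0 := by exact_mod_cast hρ.ne'
  have hmem : ∀ w ∈ ball y ρ, (w - y) / (ρ : ℂ) ∈ ball (0 : ℂ) 1 := by
    intro w hw
    rw [mem_ball, dist_eq_norm] at hw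
    rw [mem_ball, dist_zero_right, norm_div, Complex.norm_real, Real.norm_of_nonneg hρ.le, div_lt_one hρ]
    exact hw
  have hdiff : ∀ g : ℂ → ℂ, DifferentiableOn ℂ g (ball 0 1) →
      DifferentiableOn ℂ (fun w => g ((w - y) / (ρ : ℂ))) (ball y ρ) := by
    intro g hg
    have h1 : DifferentiableOn ℂ (fun w : ℂ => (w - y) / (ρ : ℂ)) (ball y ρ) := by
      fun_prop
    exact hg.comp h1 hmem
  have hval : ∀ w : ℂ, y + (ρ : ℂ) * ((w - y) / (ρ : ℂ)) = w := by
    intro w
    field_simp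
    ring
  rcases hLIF n c (fun z => y + (ρ : ℂ) * z) x t hn (by fun_prop) (by simp [hy]) with
    ⟨g, hg, g0, hgv⟩ | ⟨j, hj, g, hg, g0, hgv, z₀, hz₀, hgz⟩
  · left
    refine ⟨fun w => g ((w - y) / (ρ : ℂ)), ?_, ?_⟩
    · rw [← hy]
      refine ⟨hdiff g hg, ?_⟩
      intro w hw
      have := hgv _ (hmem w hw)
      show (ff n c)^[_] (g ((w - y) / (ρ : ℂ))) = w
      rw [this]
      exact hval w
    · rw [← hy]
      show g ((y - y) / (ρ : ℂ)) = _
      rw [sub_self, zero_div, g0]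
  · right
    refine ⟨j, hj, fun w => g ((w - y) / (ρ : ℂ)), ?_, ?_, ?_, ?_⟩
    · rw [← hy]
      refine ⟨hdiff g hg, ?_⟩
      intro w hw
      have := hgv _ (hmem w hw)
      show (ff n c)^[_] (g ((w - y) / (ρ : ℂ))) = w
      rw [this]
      exact hval w
    · rw [← hy]
      show g ((y - y) / (ρ : ℂ)) = _
      rw [sub_self, zero_div, g0]
    · have h1 := hgv z₀ hz₀
      rw [hgz] at h1
      rw [← hy]
      unfold vv
      rw [h1, mem_ball, dist_eq_norm]
      simp only [add_sub_cancel_left, norm_mul, Complex.norm_real, Real.norm_of_nonneg hρ.le]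
      rw [mem_ball, dist_zero_right] at hz₀
      nlinarith
    · have h1 := hgv z₀ hz₀
      rw [hgz] at h1
      unfold vv
      simp only
      rw [h1]
      have : (y + (ρ : ℂ) * z₀ - y) / (ρ : ℂ) = z₀ := by
        field_simp
        ring
      rw [this, hgz]

end NR
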